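import Pool.Agent.X147.BikeH

/-!
# Hyperbolic-to-elliptic transition of the bicycle monodromy (MP_08099c_gt, Q1)

For every simple strictly convex closed front track there is `ℓ₀ > 0` such that the monodromy is
hyperbolic for `ℓ < ℓ₀` and elliptic for `ℓ > ℓ₀`.
-/

namespace Pool.Agent.Results.MP_08099c_gt.Transition

open Real Set

/-- The front track `t ↦ (X t, Y t)`: a regular `T`-periodic `C²` curve, simple, bounding a
strictly convex compact region. -/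
structure ConvexFront (X Y : ℝ → ℝ) (T : ℝ) : Prop where
  period_pos : 0 < T
  smooth_X : ContDiff ℝ 2 X
  smooth_Y : ContDiff ℝ 2 Y
  periodic_X : ∀ t, X (t + T) = X t
  periodic_Y : ∀ t, Y (t + T) = Y t
  regular : ∀ t, deriv X t ≠ 0 ∨ deriv Y t ≠ 0
  simple : Set.InjOn (fun t => (X t, Y t)) (Set.Ico 0 T)
  convex : ∃ K : Set (ℝ × ℝ), IsCompact K ∧ StrictConvex ℝ K ∧ (interior K).Nonempty ∧
    frontier K = Set.range (fun t => (X t, Y t))

/-- The no-skid condition `ℓ θ' = Γ' · (-sin θ, cos θ)` for the rear track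
`γ = Γ - ℓ (cos θ, sin θ)`. -/
def NoSkid (X Y : ℝ → ℝ) (ℓ : ℝ) (θ : ℝ → ℝ) : Prop :=
  Differentiable ℝ θ ∧ ∀ t, ℓ * deriv θ t = deriv X t * (-sin (θ t)) + deriv Y t * cos (θ t)

/-- The point `(cos (x/2), sin (x/2))`; the projective line through it represents the point
`e^{ix}` of the circle. -/
noncomputable def circlePt (x : ℝ) : Fin 2 → ℝ := ![cos (x / 2), sin (x / 2)]

/-- `M ∈ SL(2,ℝ)` is a lift of the monodromy `θ(0) ↦ θ(T)` of length `ℓ`: for every solution `θ`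
it maps the projective line of `θ(0)` to the projective line of `θ(T)`. -/
def IsMonodromyLift (X Y : ℝ → ℝ) (T ℓ : ℝ) (M : Matrix.SpecialLinearGroup (Fin 2) ℝ) : Prop :=
  ∀ θ, NoSkid X Y ℓ θ → ∃ c : ℝ, c ≠ 0 ∧
    (M : Matrix (Fin 2) (Fin 2) ℝ).mulVec (circlePt (θ 0)) = c • circlePt (θ T)

/-- `|tr M| > 2` -/
def IsHyperbolic (M : Matrix.SpecialLinearGroup (Fin 2) ℝ) : Prop :=
  2 < |(M : Matrix (Fin 2) (Fin 2) ℝ).trace|

/-- `|tr M| < 2` -/
def IsElliptic (M : Matrix.SpecialLinearGroup (Fin 2) ℝ) : Prop :=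
  |(M : Matrix (Fin 2) (Fin 2) ℝ).trace| < 2

/-- Every simple strictly convex closed front track has a critical length `ℓ₀`: for every `ℓ > 0`
the steering equation has exactly one global solution with given `θ(0)`, the monodromy has a lift
to `SL(2,ℝ)`, and every lift is hyperbolic if `ℓ < ℓ₀` and elliptic if `ℓ > ℓ₀`. -/
theorem result {X Y : ℝ → ℝ} {T : ℝ} (hΓ : ConvexFront X Y T) :
    ∃ ℓ₀ : ℝ, 0 < ℓ₀ ∧ ∀ ℓ : ℝ, 0 < ℓ →
      (∀ η : ℝ, ∃! θ : ℝ → ℝ, NoSkid X Y ℓ θ ∧ θ 0 = η) ∧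
      (∃ M, IsMonodromyLift X Y T ℓ M) ∧
      ∀ M, IsMonodromyLift X Y T ℓ M →
        (ℓ < ℓ₀ → IsHyperbolic M) ∧ (ℓ₀ < ℓ → IsElliptic M) := by
  have hT : X147.Bike.ConvexTrack X Y T :=
    ⟨hΓ.period_pos, hΓ.smooth_X, hΓ.smooth_Y, hΓ.periodic_X, hΓ.periodic_Y, hΓ.regular,
      hΓ.simple, hΓ.convex⟩
  obtain ⟨ℓ₀, h0, h⟩ := hT.transition
  refine ⟨ℓ₀, h0, fun ℓ hℓ => ⟨?_, ?_, ?_⟩⟩
  · intro η
    obtain ⟨θ, hθ, hη⟩ := X147.Bike.steering_exists hT.period_pos hT.contX' hT.contY'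
      hT.perX' hT.perY' hℓ η
    refine ⟨θ, ⟨hθ, hη⟩, ?_⟩
    rintro θ' ⟨hθ', hη'⟩
    exact X147.Bike.steering_unique hT.period_pos hT.contX' hT.contY' hT.perX' hT.perY' hℓ
      hθ' hθ (hη'.trans hη.symm)
  · obtain ⟨N, hN⟩ := X147.Bike.exists_pos_lift hT.period_pos hT.contX' hT.contY'
      hT.perX' hT.perY' hℓ
    exact ⟨N, fun θ hθ => by
      obtain ⟨c, hc, h⟩ := hN θ hθ
      exact ⟨c, hc.ne', h⟩⟩
  · intro M hM
    obtain ⟨h1, h2⟩ := h ℓ hℓ M hM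
    constructor
    · intro hlt
      have := h1 hlt
      unfold IsHyperbolic
      rw [← abs_of_pos (show (0:ℝ) < 2 by norm_num), ← sq_lt_sq]
      linarith
    · intro hlt
      have := h2 hlt
      unfold IsElliptic
      rw [← abs_of_pos (show (0:ℝ) < 2 by norm_num), ← sq_lt_sq]
      linarith

end Pool.Agent.Results.MP_08099c_gt.Transition
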